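import Pool.Agent.Helper75.SyncOneMain

namespace Pool.Agent.Results.MP_832c7d_lc.MaximalCompletion

open Pool.Agent.Helper75.Codes

universe u

/-- Every regular code with synchronization delay `d` is contained in a regular maximal code with
synchronization delay `10 d`. -/
theorem result {A : Type u} (X : Language A) (hcode : IsCode X) (hreg : X.IsRegular) (d : ℕ)
    (hd : HasSyncDelay X d) :
    ∃ Y : Language A, X ≤ Y ∧ Y.IsRegular ∧ IsMaximalCode Y ∧ HasSyncDelay Y (10 * d) :=
  Pool.Agent.Helper75.completion_one_sided X hcode hreg d hd

end Pool.Agent.Results.MP_832c7d_lc.MaximalCompletion
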